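import Pool.Agent.Lib.MP_394364_lc.Full

/-!
MP_394364_lc, Q1: finite local determination for invariant `φ`-types in NIP theories.
-/

set_option autoImplicit false
open FirstOrder FirstOrder.Language

namespace Pool.Agent.Results.MP_394364_lc.InvariantSets

/-- In an NIP theory every `M`-invariant set `D` of tuples which agrees on each finite set of
tuples with an instance of `φ(x; y)` is determined by finitely many formulas over `M`. -/
theorem result :
  ∀ (L : FirstOrder.Language.{0, 0}) (M : Type) [L.Structure M] [Nonempty M],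
    -- `Th(M)` is NIP
    (∀ (n m : ℕ) (φ : L.Formula (Fin n ⊕ Fin m)), ∃ K : ℕ, ∀ a : Fin K → Fin n → M,
        ¬ ∀ J : Finset (Fin K), ∃ b : Fin m → M, ∀ i : Fin K,
          (φ.Realize (Sum.elim (a i) b) ↔ i ∈ J)) →
    ∀ (N : Type) [L.Structure N] (f : M ↪ₑ[L] N),
      -- `N` realises all finitary types over `M`
      (∀ (m : ℕ) (M' : Type) [L.Structure M'] (h : M ↪ₑ[L] M') (d : Fin m → M'),
        ∃ b : Fin m → N, ∀ (k : ℕ) (ψ : L.Formula (Fin m ⊕ Fin k)) (c : Fin k → M),
          (ψ.Realize (Sum.elim d (fun i => h (c i))) ↔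
            ψ.Realize (Sum.elim b (fun i => f (c i))))) →
    ∀ (n m : ℕ) (φ : L.Formula (Fin n ⊕ Fin m)) (D : Set (Fin m → N)),
      -- membership in `D` depends only on the type over `M`
      (∀ b b' : Fin m → N,
        (∀ (k : ℕ) (ψ : L.Formula (Fin m ⊕ Fin k)) (c : Fin k → M),
          (ψ.Realize (Sum.elim b (fun i => f (c i))) ↔
            ψ.Realize (Sum.elim b' (fun i => f (c i))))) →
        (b ∈ D ↔ b' ∈ D)) →
      -- `D` agrees on each finite set of tuples with an instance of `φ`
      (∀ B : Finset (Fin m → N), ∃ x : Fin n → N, ∀ b ∈ B,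
        (φ.Realize (Sum.elim x b) ↔ b ∈ D)) →
      ∃ (k : ℕ) (Δ' : Finset (L.Formula (Fin m ⊕ Fin k))),
        ∀ b b' : Fin m → N,
          (∀ ψ ∈ Δ', ∀ c : Fin k → M,
            (ψ.Realize (Sum.elim b (fun i => f (c i))) ↔
              ψ.Realize (Sum.elim b' (fun i => f (c i))))) →
          (b ∈ D ↔ b' ∈ D) := by
  classical
  intro L M _ _ hnip N _ f hN n m φ D hinv happ
  refine FLD394364.FLD.frozen (FLD394364.fld_of_nip (f := f) (β := Fin n)
    (D := fun b => b ∈ D) hnip hN ?_ φ ?_)
  · -- invariance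
    intro b b' h
    refine hinv b b' (fun k ψ c => ?_)
    have e : ∀ (ψ : L.Formula (Fin m ⊕ Fin k)) (y : Fin m → N),
        (ψ.relabel (Sum.map id c : Fin m ⊕ Fin k → Fin m ⊕ M)).Realize (Sum.elim y f) ↔
          ψ.Realize (Sum.elim y (fun i => f (c i))) := by
      intro ψ y
      rw [Formula.realize_relabel]
      have : Sum.elim y f ∘ (Sum.map id c : Fin m ⊕ Fin k → Fin m ⊕ M) =
          Sum.elim y (fun i => f (c i)) := by
        funext q; rcases q with i | i <;> rfl
      rw [this]
    constructor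
    · intro h1
      exact (e ψ b').1 (h _ ((e ψ b).2 h1))
    · intro h1
      by_contra h2
      have h3 := (e (∼ψ) b').1 (h _ ((e (∼ψ) b).2 (by rw [Formula.realize_not]; exact h2)))
      rw [Formula.realize_not] at h3
      exact h3 h1
  · intro K y
    obtain ⟨x, hx⟩ := happ (Finset.univ.image (fun j : Fin K => fun i => y (j, i)))
    exact ⟨x, fun j => hx _ (Finset.mem_image_of_mem _ (Finset.mem_univ j))⟩

end Pool.Agent.Results.MP_394364_lc.InvariantSets
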